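import Pool.Agent.U369.HY.Opt

/-!
# A matching covering a set of vertices up to one vertex of every group (by Tutte's theorem)
-/

set_option autoImplicit false
open Classical Finset

namespace Pool.Agent.U369.HY

open Pool.Q6.CI

variable {V : Type*} [Fintype V]

/-- a vertex of `F` in the first copy -/
def isF (F : Finset V) : V ⊕ V → Prop
  | Sum.inl v => v ∈ F
  | Sum.inr _ => False

/-- the edges of `G` between vertices of `O`, and an edge from `v ∈ F` to its group -/
def bs (G : SimpleGraph V) (O : V → Prop) (F : Finset V) (g : V → V) : V ⊕ V → V ⊕ V → Prop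
  | Sum.inl v, Sum.inl z => G.Adj v z ∧ O v ∧ O z
  | Sum.inl v, Sum.inr n => v ∈ F ∧ g v = n
  | Sum.inr n, Sum.inl v => v ∈ F ∧ g v = n
  | Sum.inr _, Sum.inr _ => False

omit [Fintype V] in
theorem bs_symm (G : SimpleGraph V) (O : V → Prop) (F : Finset V) (g : V → V) (a b : V ⊕ V)
    (h : bs G O F g a b) : bs G O F g b a := by
  rcases a with a | a <;> rcases b with b | b
  · exact ⟨h.1.symm, h.2.2, h.2.1⟩
  · exact h
  · exact h
  · exact h

/-- the auxiliary graph: all pairs outside `F` are joined -/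
def aux (G : SimpleGraph V) (O : V → Prop) (F : Finset V) (g : V → V) : SimpleGraph (V ⊕ V) where
  Adj a b := a ≠ b ∧ ((¬ isF F a ∧ ¬ isF F b) ∨ bs G O F g a b)
  symm := ⟨fun a b h => ⟨h.1.symm, h.2.imp (fun h => ⟨h.2, h.1⟩) (bs_symm G O F g a b)⟩⟩
  loopless := ⟨fun _ h => h.1 rfl⟩

theorem aux_tutte {G : SimpleGraph V} {O : V → Prop} {F : Finset V} {g : V → V} {D : ℕ}
    (hD : 4 ≤ D) (hF : ∀ v ∈ F, O v)
    (hFd : ∀ v ∈ F, D - 2 ≤ (univ.filter fun w => G.Adj v w ∧ O w).card)
    (hd : ∀ v, dg G v ≤ D) (hg : ∀ n, (F.filter fun v => g v = n).card ≤ 2)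
    (S : Set (V ⊕ V)) : ¬ (aux G O F g).IsTutteViolator S := by
  intro hS
  unfold SimpleGraph.IsTutteViolator at hS
  set L := ((⊤ : (aux G O F g).Subgraph).deleteVerts S) with hL
  have hLv : ∀ a : V ⊕ V, a ∈ L.verts ↔ a ∉ S := by
    intro a
    simp [hL]
  have hadj0 : ∀ a b : V ⊕ V, a ∉ S → b ∉ S → (aux G O F g).Adj a b → L.Adj a b := by
    intro a b ha hb hab
    rw [hL, SimpleGraph.Subgraph.deleteVerts_adj]
    exact ⟨by simp, ha, by simp, hb, by simpa using hab⟩
  have hadj : ∀ a b : L.verts, (aux G O F g).Adj a b → L.coe.Adj a b := fun a b hab =>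
    hadj0 a b ((hLv a).1 a.2) ((hLv b).1 b.2) hab
  have : Fintype L.coe.ConnectedComponent := Fintype.ofFinite _
  let U : L.coe.ConnectedComponent → Finset V := fun C =>
    F.filter fun v => ∃ hv : Sum.inl v ∈ L.verts, L.coe.connectedComponentMk ⟨Sum.inl v, hv⟩ = C
  let CC : Finset L.coe.ConnectedComponent := univ.filter fun C => C ∈ L.coe.oddComponents ∧
    ∀ w ∈ C.supp, isF F (w : V ⊕ V)
  -- all odd components but one consist of vertices of `F`
  have h1 : L.coe.oddComponents.ncard ≤ CC.card + 1 := by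
    have e1 : L.coe.oddComponents ⊆ (CC : Set L.coe.ConnectedComponent) ∪
        {C | ∃ w ∈ C.supp, ¬ isF F (w : V ⊕ V)} := by
      intro C hC
      by_cases h2 : ∀ w ∈ C.supp, isF F (w : V ⊕ V)
      · refine Or.inl ?_
        rw [mem_coe, mem_filter]
        exact ⟨mem_univ _, hC, h2⟩
      · push Not at h2
        exact Or.inr h2
    have e2 : {C : L.coe.ConnectedComponent | ∃ w ∈ C.supp, ¬ isF F (w : V ⊕ V)}.ncard ≤ 1 := by
      rw [Set.ncard_le_one (Set.toFinite _)]
      rintro C ⟨w, hw, hwF⟩ C' ⟨w', hw', hwF'⟩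
      rw [SimpleGraph.ConnectedComponent.mem_supp_iff] at hw hw'
      rw [← hw, ← hw']
      by_cases hww : w = w'
      · rw [hww]
      · apply SimpleGraph.ConnectedComponent.sound
        apply SimpleGraph.Adj.reachable
        apply hadj
        exact ⟨fun h => hww (Subtype.ext h), Or.inl ⟨hwF, hwF'⟩⟩
    calc L.coe.oddComponents.ncard ≤ _ := Set.ncard_le_ncard e1 (Set.toFinite _)
      _ ≤ (CC : Set L.coe.ConnectedComponent).ncard + _ := Set.ncard_union_le _ _
      _ ≤ CC.card + 1 := by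
        rw [Set.ncard_coe_finset]
        omega
  -- the neighbours of the vertices of such components
  have hout : ∀ C ∈ CC, ∀ v ∈ U C, ∀ b, (aux G O F g).Adj (Sum.inl v) b → b ∉ S →
      ∃ z ∈ U C, b = Sum.inl z := by
    intro C hC v hv b hb hbS
    rw [mem_filter] at hC
    obtain ⟨-, -, hC⟩ := hC
    rw [mem_filter] at hv
    obtain ⟨hvF, hvL, hvC⟩ := hv
    have hbL : b ∈ L.verts := (hLv b).2 hbS
    have hbC : L.coe.connectedComponentMk ⟨b, hbL⟩ = C := by
      rw [← hvC]
      apply SimpleGraph.ConnectedComponent.sound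
      apply SimpleGraph.Adj.reachable
      apply hadj
      exact hb.symm
    have h2 := hC ⟨b, hbL⟩ (by rw [SimpleGraph.ConnectedComponent.mem_supp_iff]; exact hbC)
    rcases b with z | n
    · refine ⟨z, ?_, rfl⟩
      rw [mem_filter]
      exact ⟨h2, hbL, hbC⟩
    · exact absurd h2 (by simp [isF])
  have hUne : ∀ C ∈ CC, (U C).Nonempty := by
    intro C hC
    rw [mem_filter] at hC
    obtain ⟨-, -, hC⟩ := hC
    obtain ⟨⟨w, hwL⟩, hw⟩ := C.exists_rep
    have hwC : L.coe.connectedComponentMk ⟨w, hwL⟩ = C := hw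
    have h2 := hC ⟨w, hwL⟩ (by rw [SimpleGraph.ConnectedComponent.mem_supp_iff]; exact hwC)
    rcases w with z | n
    · refine ⟨z, ?_⟩
      rw [mem_filter]
      exact ⟨h2, hwL, hwC⟩
    · exact absurd h2 (by simp [isF])
  set S1 : Finset V := univ.filter fun z => Sum.inl z ∈ S with hS1
  set S2 : Finset V := univ.filter fun z => Sum.inr z ∈ S with hS2
  have hScard : S.ncard = S1.card + S2.card := by
    rw [← card_disjSum, ← Set.ncard_coe_finset]
    congr 1
    ext a
    rcases a with a | a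
    · simp [hS1]
    · simp [hS2]
  have hUdis : ∀ C ∈ CC, ∀ C' ∈ CC, C ≠ C' → Disjoint (U C) (U C') := by
    intro C _ C' _ hne
    rw [disjoint_left]
    intro v hv hv'
    rw [mem_filter] at hv hv'
    obtain ⟨-, h2, h3⟩ := hv
    obtain ⟨-, h2', h3'⟩ := hv'
    exact hne (h3.symm.trans h3')
  set W : Finset V := CC.biUnion U with hW
  have hWF : W ⊆ F := by
    intro v hv
    rw [hW, mem_biUnion] at hv
    obtain ⟨C, -, hv⟩ := hv
    exact (mem_filter.1 hv).1
  have hlow : 2 * D * CC.card ≤ ∑ v ∈ W, (2 * (S1.filter fun z => G.Adj v z).card + D) := by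
    rw [hW, sum_biUnion hUdis]
    have e1 : ∀ C ∈ CC, 2 * D ≤ ∑ v ∈ U C, (2 * (S1.filter fun z => G.Adj v z).card + D) := by
      intro C hC
      have hpos := card_pos.2 (hUne C hC)
      by_cases h2 : (U C).card = 1
      · obtain ⟨v, hv⟩ := card_eq_one.1 h2
        rw [hv, sum_singleton]
        have hvU : v ∈ U C := by rw [hv]; exact mem_singleton_self v
        have hvF : v ∈ F := (mem_filter.1 hvU).1
        have e2 : (univ.filter fun w => G.Adj v w ∧ O w) ⊆ S1.filter fun z => G.Adj v z := by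
          intro z hz
          rw [mem_filter] at hz
          obtain ⟨-, hz1, hz2⟩ := hz
          rw [mem_filter, hS1, mem_filter]
          refine ⟨⟨mem_univ _, ?_⟩, hz1⟩
          by_contra hzS
          obtain ⟨z', hz', hzz⟩ := hout C hC v hvU (Sum.inl z)
            ⟨fun h => hz1.ne (Sum.inl_injective h), Or.inr ⟨hz1, hF v hvF, hz2⟩⟩ hzS
          rw [hv, mem_singleton] at hz'
          have := Sum.inl_injective hzz
          exact hz1.ne (by rw [this, hz'])
        have e3 := card_le_card e2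
        have e4 := hFd v hvF
        omega
      · have e2 : ∑ v ∈ U C, D ≤ ∑ v ∈ U C, (2 * (S1.filter fun z => G.Adj v z).card + D) :=
          sum_le_sum fun v _ => Nat.le_add_left _ _
        rw [sum_const, smul_eq_mul] at e2
        have e3 : 2 * D ≤ (U C).card * D := Nat.mul_le_mul_right D (by omega)
        omega
    calc 2 * D * CC.card = ∑ C ∈ CC, 2 * D := by rw [sum_const, smul_eq_mul, mul_comm]
      _ ≤ _ := sum_le_sum e1
  have hup1 : ∑ v ∈ W, (S1.filter fun z => G.Adj v z).card ≤ D * S1.card := by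
    have e1 : ∑ v ∈ W, (S1.filter fun z => G.Adj v z).card =
        ∑ z ∈ S1, (W.filter fun v => G.Adj v z).card := by
      have e2 : ∀ v ∈ W, (S1.filter fun z => G.Adj v z).card =
          ∑ z ∈ S1, if G.Adj v z then 1 else 0 := fun v _ => by rw [← card_filter]
      rw [sum_congr rfl e2, sum_comm]
      refine sum_congr rfl fun z _ => ?_
      rw [← card_filter]
    rw [e1]
    have e3 : ∀ z ∈ S1, (W.filter fun v => G.Adj v z).card ≤ D := by
      intro z _
      refine (card_le_card ?_).trans (hd z)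
      intro v hv
      rw [mem_filter] at hv ⊢
      exact ⟨mem_univ _, hv.2.symm⟩
    calc ∑ z ∈ S1, (W.filter fun v => G.Adj v z).card ≤ ∑ z ∈ S1, D := sum_le_sum e3
      _ = D * S1.card := by rw [sum_const, smul_eq_mul, mul_comm]
  have hup2 : W.card ≤ 2 * S2.card := by
    have e1 : ∀ v ∈ W, g v ∈ S2 := by
      intro v hv
      have hvF := hWF hv
      rw [hW, mem_biUnion] at hv
      obtain ⟨C, hC, hv⟩ := hv
      rw [hS2, mem_filter]
      refine ⟨mem_univ _, ?_⟩
      by_contra h2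
      obtain ⟨z, -, hz⟩ := hout C hC v hv (Sum.inr (g v)) ⟨by simp, Or.inr ⟨hvF, rfl⟩⟩ h2
      exact absurd hz (by simp)
    rw [card_eq_sum_card_fiberwise e1]
    calc ∑ b ∈ S2, (W.filter fun v => g v = b).card ≤ ∑ b ∈ S2, 2 := by
          refine sum_le_sum fun b _ => (card_le_card ?_).trans (hg b)
          exact filter_subset_filter _ hWF
      _ = 2 * S2.card := by rw [sum_const, smul_eq_mul, mul_comm]
  have hCC : CC.card ≤ S.ncard := by
    rw [hScard]
    rw [sum_add_distrib, sum_const, smul_eq_mul, ← mul_sum] at hlow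
    have e1 : 2 * D * CC.card ≤ 2 * D * (S1.card + S2.card) := by nlinarith
    exact Nat.le_of_mul_le_mul_left e1 (by omega)
  -- parity
  have hpar := SimpleGraph.odd_ncard_oddComponents (G := L.coe)
  have hcardL : Nat.card L.verts + S.ncard = 2 * Fintype.card V := by
    have e1 : L.verts = Sᶜ := by
      ext a
      rw [hLv]
      rfl
    rw [e1, Nat.card_coe_set_eq, add_comm, Set.ncard_add_ncard_compl, Nat.card_eq_fintype_card,
      Fintype.card_sum]
    ring
  rw [Nat.odd_iff, Nat.odd_iff] at hpar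
  omega

/-- the selection of a matching -/
theorem cover {G : SimpleGraph V} {O : V → Prop} {F : Finset V} {g : V → V} {D : ℕ}
    (hD : 4 ≤ D) (hF : ∀ v ∈ F, O v)
    (hFd : ∀ v ∈ F, D - 2 ≤ (univ.filter fun w => G.Adj v w ∧ O w).card)
    (hd : ∀ v, dg G v ≤ D) (hg : ∀ n, (F.filter fun v => g v = n).card ≤ 2) :
    ∃ m : V → V, (∀ x, m (m x) = x) ∧ (∀ x, m x ≠ x → G.Adj x (m x) ∧ O x ∧ O (m x)) ∧
      ∀ v ∈ F, ∀ w ∈ F, m v = v → m w = w → g v = g w → v = w := by
  obtain ⟨M, hM⟩ := SimpleGraph.tutte.2 (aux_tutte hD hF hFd hd hg)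
  have hpart : ∀ a, ∃ b, M.Adj a b ∧ ∀ b', M.Adj a b' → b' = b := by
    intro a
    obtain ⟨b, hb, hb'⟩ := hM.1 (hM.2 a)
    exact ⟨b, hb, hb'⟩
  choose P hP1 hP2 using hpart
  have hPP : ∀ a b, P a = b → P b = a := by
    rintro a b rfl
    exact (hP2 _ _ (hP1 a).symm).symm
  let m : V → V := fun x => match P (Sum.inl x) with
    | Sum.inl z => if x ∈ F ∨ z ∈ F then z else x
    | Sum.inr _ => x
  have hm1 : ∀ x z, P (Sum.inl x) = Sum.inl z → (x ∈ F ∨ z ∈ F) → m x = z := by
    intro x z h1 h2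
    simp only [m, h1, if_pos h2]
  have hm2 : ∀ x z, P (Sum.inl x) = Sum.inl z → ¬ (x ∈ F ∨ z ∈ F) → m x = x := by
    intro x z h1 h2
    simp only [m, h1, if_neg h2]
  have hm3 : ∀ x z, P (Sum.inl x) = Sum.inr z → m x = x := by
    intro x z h1
    simp only [m, h1]
  refine ⟨m, ?_, ?_, ?_⟩
  · intro x
    rcases hx : P (Sum.inl x) with z | z
    · by_cases h1 : x ∈ F ∨ z ∈ F
      · rw [hm1 x z hx h1, hm1 z x (hPP _ _ hx) h1.symm]
      · rw [hm2 x z hx h1, hm2 x z hx h1]
    · rw [hm3 x z hx, hm3 x z hx]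
  · intro x hmx
    rcases hx : P (Sum.inl x) with z | z
    · by_cases h1 : x ∈ F ∨ z ∈ F
      · rw [hm1 x z hx h1]
        have h2 : (aux G O F g).Adj (Sum.inl x) (Sum.inl z) := by
          have := M.adj_sub (hP1 (Sum.inl x))
          rwa [hx] at this
        rcases h2.2 with h3 | h3
        · rcases h1 with h1 | h1
          · exact absurd h1 h3.1
          · exact absurd h1 h3.2
        · exact h3
      · exact absurd (hm2 x z hx h1) hmx
    · exact absurd (hm3 x z hx) hmx
  · have key : ∀ v ∈ F, m v = v → P (Sum.inl v) = Sum.inr (g v) := by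
      intro v hv hmv
      rcases hx : P (Sum.inl v) with z | z
      · exfalso
        rw [hm1 v z hx (Or.inl hv)] at hmv
        have := M.adj_sub (hP1 (Sum.inl v))
        rw [hx, hmv] at this
        exact this.1 rfl
      · have h2 : (aux G O F g).Adj (Sum.inl v) (Sum.inr z) := by
          have := M.adj_sub (hP1 (Sum.inl v))
          rwa [hx] at this
        rcases h2.2 with h3 | h3
        · exact absurd hv h3.1
        · rw [h3.2]
    intro v hv w hw hmv hmw hgg
    have h1 := hPP _ _ (key v hv hmv)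
    have h2 := hPP _ _ (key w hw hmw)
    rw [← hgg, h1] at h2
    exact Sum.inl_injective h2

/-- the same with a maximal matching -/
theorem cover_max {G : SimpleGraph V} {O : V → Prop} {F : Finset V} {g : V → V} {D : ℕ}
    (hD : 4 ≤ D) (hF : ∀ v ∈ F, O v)
    (hFd : ∀ v ∈ F, D - 2 ≤ (univ.filter fun w => G.Adj v w ∧ O w).card)
    (hd : ∀ v, dg G v ≤ D) (hg : ∀ n, (F.filter fun v => g v = n).card ≤ 2) :
    ∃ m : V → V, (∀ x, m (m x) = x) ∧ (∀ x, m x ≠ x → G.Adj x (m x) ∧ O x ∧ O (m x)) ∧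
      (∀ v ∈ F, ∀ w ∈ F, m v = v → m w = w → g v = g w → v = w) ∧
      ∀ x y, G.Adj x y → O x → O y → m x = x → m y = y → False := by
  let Q : (V → V) → Prop := fun m => (∀ x, m (m x) = x) ∧
    (∀ x, m x ≠ x → G.Adj x (m x) ∧ O x ∧ O (m x)) ∧
      ∀ v ∈ F, ∀ w ∈ F, m v = v → m w = w → g v = g w → v = w
  obtain ⟨m0, hm0⟩ := cover hD hF hFd hd hg
  obtain ⟨m, hm, hmax⟩ := exists_max_image ((univ : Finset (V → V)).filter Q)
    (fun m => (univ.filter fun x => m x ≠ x).card) ⟨m0, by rw [mem_filter]; exact ⟨mem_univ _, hm0⟩⟩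
  rw [mem_filter] at hm
  obtain ⟨-, h1, h2, h3⟩ := hm
  refine ⟨m, h1, h2, h3, ?_⟩
  intro x y hxy hx hy hmx hmy
  let m' : V → V := fun z => if z = x then y else if z = y then x else m z
  have hne := hxy.ne
  have hmx' : m' x = y := by simp [m']
  have hmy' : m' y = x := by simp [m', hne.symm]
  have hmz : ∀ z, z ≠ x → z ≠ y → m' z = m z := by
    intro z hz1 hz2
    simp [m', hz1, hz2]
  have hmz' : ∀ z, z ≠ x → z ≠ y → m z ≠ x ∧ m z ≠ y := by
    intro z hz1 hz2
    refine ⟨fun h4 => hz1 ?_, fun h4 => hz2 ?_⟩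
    · rw [← h1 z, h4, hmx]
    · rw [← h1 z, h4, hmy]
  have hQ : Q m' := by
    refine ⟨?_, ?_, ?_⟩
    · intro z
      by_cases hz1 : z = x
      · rw [hz1, hmx', hmy']
      · by_cases hz2 : z = y
        · rw [hz2, hmy', hmx']
        · rw [hmz z hz1 hz2, hmz _ (hmz' z hz1 hz2).1 (hmz' z hz1 hz2).2, h1]
    · intro z hz
      by_cases hz1 : z = x
      · rw [hz1, hmx']
        exact ⟨hxy, hx, hy⟩
      · by_cases hz2 : z = y
        · rw [hz2, hmy']
          exact ⟨hxy.symm, hy, hx⟩
        · rw [hmz z hz1 hz2] at hz ⊢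
          exact h2 z hz
    · have key : ∀ v, m' v = v → m v = v := by
        intro v hv
        by_cases hz1 : v = x
        · rw [hz1, hmx'] at hv
          exact absurd hv hne.symm
        · by_cases hz2 : v = y
          · rw [hz2, hmy'] at hv
            exact absurd hv hne
          · rwa [hmz v hz1 hz2] at hv
      intro v hv w hw hmv hmw hgg
      exact h3 v hv w hw (key v hmv) (key w hmw) hgg
  have h4 := hmax m' (by rw [mem_filter]; exact ⟨mem_univ _, hQ⟩)
  have h5 : (univ.filter fun z => m z ≠ z) ⊂ univ.filter fun z => m' z ≠ z := by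
    rw [ssubset_iff_of_subset]
    · refine ⟨x, ?_, ?_⟩
      · rw [mem_filter, hmx']
        exact ⟨mem_univ _, hne.symm⟩
      · rw [mem_filter]
        intro h
        exact h.2 hmx
    · intro z hz
      rw [mem_filter] at hz ⊢
      refine ⟨hz.1, ?_⟩
      have hz1 : z ≠ x := by
        rintro rfl
        exact hz.2 hmx
      have hz2 : z ≠ y := by
        rintro rfl
        exact hz.2 hmy
      rw [hmz z hz1 hz2]
      exact hz.2
  have h6 := card_lt_card h5
  omega

end Pool.Agent.U369.HY
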