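import Pool.Agent.U369.HY.Deg
import Pool.Agent.U369.HY.Cover

/-!
# The matching outside the top class whose removal leaves a class one graph
-/

set_option autoImplicit false
open Classical Finset

namespace Pool.Agent.U369.HY

open Pool.Q6.CI Pool.Q11.TwoEnd

variable {V : Type*} [Fintype V] {G : SimpleGraph V} {T : ℕ} {c : V → ℕ}

/-- `G` without the edges `{x, m x}` -/
def rmM (G : SimpleGraph V) (m : V → V) : SimpleGraph V where
  Adj a b := G.Adj a b ∧ m a ≠ b ∧ m b ≠ a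
  symm := ⟨fun _ _ h => ⟨h.1.symm, h.2.2, h.2.1⟩⟩
  loopless := ⟨fun _ h => h.1.ne rfl⟩

/-- the node of a top vertex -/
noncomputable def nu (G : SimpleGraph V) (T : ℕ) (c : V → ℕ) (x : V) : V :=
  if hx : Star G T c x then hx.choose else x

omit [Fintype V] in
theorem nu_not {x : V} (hx : ¬ Star G T c x) : nu G T c x = x := by
  unfold nu
  rw [dif_neg hx]

omit [Fintype V] in
theorem nu_star {x : V} (hx : Star G T c x) : G.Adj x (nu G T c x) ∧ Unf G T c (nu G T c x) := by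
  unfold nu
  rw [dif_pos hx]
  exact hx.choose_spec

theorem order_hyp (h : Opt G T c) (hd : ∀ v, dg G v ≤ T + 1) (p q : V → V)
    (hpq : ∀ v ∈ FF G T c, NI G T c v = {p v, q v}) (N : Finset V) (hN : N.Nonempty) :
    ∃ n ∈ N, ((FF G T c).filter fun v => nu G T c (p v) ∈ N ∧ nu G T c (q v) ∈ N ∧
      (nu G T c (p v) = n ∨ nu G T c (q v) = n)).card ≤ 2 := by
  by_contra hcon
  push Not at hcon
  set X : Finset V := (FF G T c).filter fun v => nu G T c (p v) ∈ N ∧ nu G T c (q v) ∈ N with hX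
  have h1 : ∀ n ∈ N, 3 ≤ (X.filter fun v => nu G T c (p v) = n).card +
      (X.filter fun v => nu G T c (q v) = n).card := by
    intro n hn
    have h2 := hcon n hn
    have h3 : ((FF G T c).filter fun v => nu G T c (p v) ∈ N ∧ nu G T c (q v) ∈ N ∧
        (nu G T c (p v) = n ∨ nu G T c (q v) = n)) ⊆
        (X.filter fun v => nu G T c (p v) = n) ∪ (X.filter fun v => nu G T c (q v) = n) := by
      intro v hv
      rw [mem_filter] at hv
      simp only [mem_union, hX, mem_filter]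
      rcases hv with ⟨a1, a2, a3, a4 | a4⟩
      · exact Or.inl ⟨⟨a1, a2, a3⟩, a4⟩
      · exact Or.inr ⟨⟨a1, a2, a3⟩, a4⟩
    have h4 := (card_le_card h3).trans (card_union_le _ _)
    omega
  have h2 := sum_le_sum h1
  rw [sum_add_distrib, sum_const, smul_eq_mul] at h2
  have h3 : X.card = ∑ n ∈ N, (X.filter fun v => nu G T c (p v) = n).card :=
    card_eq_sum_card_fiberwise (fun v hv => (mem_filter.1 hv).2.1)
  have h4 : X.card = ∑ n ∈ N, (X.filter fun v => nu G T c (q v) = n).card :=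
    card_eq_sum_card_fiberwise (fun v hv => (mem_filter.1 hv).2.2)
  have h5 := hall h hd (X := X) (filter_subset _ _)
  have h6 : NS G T c X ⊆ N := by
    intro x hx
    obtain ⟨hxT, v, hv, hxv, -, hst⟩ := mem_NS.1 hx
    rw [hX, mem_filter] at hv
    have h7 : x ∈ NI G T c v := mem_NI.2 ⟨hxv.symm, hxT⟩
    rw [hpq v hv.1, mem_insert, mem_singleton] at h7
    have h8 := nu_not hst
    rcases h7 with h7 | h7
    · rw [← h8, h7]; exact hv.2.1
    · rw [← h8, h7]; exact hv.2.2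
  have h7 := card_le_card h6
  have h8 := card_pos.2 hN
  omega

theorem core_ok (h : Opt G T c) (hd : ∀ v, dg G v ≤ T + 1) (hT : 3 ≤ T) :
    ∃ m : V → V, (∀ x, m (m x) = x) ∧ (∀ x, m x ≠ x → G.Adj x (m x) ∧ c x ≠ T ∧ c (m x) ≠ T) ∧
      EC (rmM G m) (T + 1) := by
  have hpq : ∀ v, ∃ p q, v ∈ FF G T c → NI G T c v = {p, q} := by
    intro v
    by_cases hv : v ∈ FF G T c
    · obtain ⟨p, q, -, hpq⟩ := card_eq_two.1 (NI_eq h hd hv)
      exact ⟨p, q, fun _ => hpq⟩
    · exact ⟨v, v, fun h1 => absurd h1 hv⟩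
  choose p q hpq using hpq
  obtain ⟨ρ, hρ, hρ2⟩ := order (FF G T c) (fun v => nu G T c (p v)) (fun v => nu G T c (q v)) 2
    (fun N hN => order_hyp h hd p q hpq N hN)
  set e1 : V → V := fun v => nu G T c (p v) with he1
  set e2 : V → V := fun v => nu G T c (q v) with he2
  set g : V → V := fun v => if ρ (e1 v) ≤ ρ (e2 v) then e1 v else e2 v with hg
  have hg1 : ∀ v, ρ (g v) ≤ ρ (e1 v) := by
    intro v
    simp only [hg]
    split_ifs with h1
    · exact le_refl _
    · omega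
  have hg2 : ∀ v, ρ (g v) ≤ ρ (e2 v) := by
    intro v
    simp only [hg]
    split_ifs with h1
    · exact h1
    · exact le_refl _
  have hgc : ∀ n, ((FF G T c).filter fun v => g v = n).card ≤ 2 := by
    intro n
    refine (card_le_card ?_).trans (hρ2 n)
    intro v hv
    rw [mem_filter] at hv ⊢
    refine ⟨hv.1, ?_⟩
    obtain ⟨-, hv⟩ := hv
    simp only [hg] at hv
    split_ifs at hv with h1
    · exact Or.inl ⟨hv, by rw [← hv]; exact h1⟩
    · exact Or.inr ⟨hv, by rw [← hv]; exact (not_le.1 h1).le⟩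
  obtain ⟨m, hm1, hm2, hm3, hm4⟩ := cover_max (G := G) (O := fun v => c v ≠ T)
    (F := FF G T c) (g := g) (D := T + 1) (by omega) (fun v hv => (mem_FF.1 hv).1)
    (by
      intro v hv
      have h1 := out_ge h (mem_FF.1 hv).1 (mem_FF.1 hv).2.1
      unfold Out at h1
      have h2 : T + 1 - 2 = T - 1 := by omega
      rw [h2]
      convert h1) hd hgc
  refine ⟨m, hm1, hm2, ?_⟩
  have hle : rmM G m ≤ G := fun _ _ h1 => h1.1
  refine fournier (by omega) _ (rmM G m) rfl (fun v => (dg_mono hle v).trans (hd v)) ?_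
  intro C hCne hCd
  by_contra hcon
  push Not at hcon
  have two : ∀ w ∈ C, ∀ y0, ∃ y ∈ C, y ≠ y0 ∧ G.Adj w y := by
    intro w hw y0
    obtain ⟨y1, hy1, y2, hy2, h12⟩ := one_lt_card.1 (hcon w hw)
    rw [mem_filter] at hy1 hy2
    by_cases h1 : y1 = y0
    · exact ⟨y2, hy2.1, fun h3 => h12 (h1.trans h3.symm), hle hy2.2⟩
    · exact ⟨y1, hy1.1, h1, hle hy1.2⟩
  have hfix : ∀ v ∈ C, m v = v := by
    intro v hv
    by_contra hmv
    have h1 := hCd v hv
    have h2 := hd v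
    have h3 : (univ.filter fun w => (rmM G m).Adj v w) ⊆
        (univ.filter fun w => G.Adj v w).erase (m v) := by
      intro w hw
      rw [mem_filter] at hw
      rw [mem_erase, mem_filter]
      exact ⟨hw.2.2.1.symm, mem_univ _, hw.2.1⟩
    have h4 := card_le_card h3
    rw [card_erase_of_mem (by rw [mem_filter]; exact ⟨mem_univ _, (hm2 v hmv).1⟩)] at h4
    unfold dg at h1 h2
    omega
  have htop : ∀ w ∈ C, c w ≠ T → ∀ y ∈ C, G.Adj w y → c y = T := by
    intro w hw hwT y hy hwy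
    by_contra hyT
    exact hm4 w y hwy hwT hyT (hfix w hw) (hfix y hy)
  have hFFm : ∀ y ∈ C, c y ≠ T → ¬ Unf G T c y → y ∈ FF G T c := by
    intro y hy hyT hyU
    rw [mem_FF]
    refine ⟨hyT, hyU, (hcon y hy).trans_le (card_le_card ?_) |> fun h => h⟩
    intro z hz
    rw [mem_filter] at hz
    exact mem_NI.2 ⟨hle hz.2, htop y hy hyT z hz.1 (hle hz.2)⟩
  have hne : ∀ x y, c x = T → G.Adj x y → c y ≠ T := by
    intro x y hx hxy hy
    exact h.1.2 x y hxy (hx.trans hy.symm)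
  -- the set of the chosen vertices in `C`
  set R : Finset V := C ∩ FF G T c with hR
  have hRtop : ∀ x ∈ C, c x = T → ∃ y ∈ R, G.Adj x y := by
    intro x hx hxT
    obtain ⟨y1, hy1, -, hxy1⟩ := two x hx x
    by_cases hU : Unf G T c y1
    · obtain ⟨y2, hy2, h12, hxy2⟩ := two x hx y1
      have hU2 : ¬ Unf G T c y2 := fun h1 => h12 (unf_unique h hd hxT hxy2 h1 hxy1 hU)
      exact ⟨y2, mem_inter.2 ⟨hy2, hFFm y2 hy2 (hne x y2 hxT hxy2) hU2⟩, hxy2⟩
    · exact ⟨y1, mem_inter.2 ⟨hy1, hFFm y1 hy1 (hne x y1 hxT hxy1) hU⟩, hxy1⟩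
  have hRne : R.Nonempty := by
    obtain ⟨w, hw⟩ := hCne
    by_cases hwT : c w = T
    · obtain ⟨y, hy, -⟩ := hRtop w hw hwT
      exact ⟨y, hy⟩
    · obtain ⟨x, hx, -, hwx⟩ := two w hw w
      obtain ⟨y, hy, -⟩ := hRtop x hx (htop w hw hwT x hx hwx)
      exact ⟨y, hy⟩
  obtain ⟨v1, hv1, hmin⟩ := exists_min_image R (fun v => ρ (g v)) hRne
  rw [hR, mem_inter] at hv1
  have hNI1 := hpq v1 hv1.2
  have hv1T := (mem_FF.1 hv1.2).1
  have hin : ∀ y ∈ C, G.Adj v1 y → y = p v1 ∨ y = q v1 := by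
    intro y hy hvy
    have h1 : y ∈ NI G T c v1 := mem_NI.2 ⟨hvy, htop v1 hv1.1 hv1T y hy hvy⟩
    rwa [hNI1, mem_insert, mem_singleton] at h1
  have hpC : p v1 ∈ C ∧ G.Adj v1 (p v1) := by
    obtain ⟨y, hy, hyq, hvy⟩ := two v1 hv1.1 (q v1)
    rcases hin y hy hvy with h1 | h1
    · rw [← h1]; exact ⟨hy, hvy⟩
    · exact absurd h1 hyq
  have hqC : q v1 ∈ C ∧ G.Adj v1 (q v1) := by
    obtain ⟨y, hy, hyq, hvy⟩ := two v1 hv1.1 (p v1)
    rcases hin y hy hvy with h1 | h1
    · exact absurd h1 hyq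
    · rw [← h1]; exact ⟨hy, hvy⟩
  obtain ⟨x0, hx0C, hvx0, hx0n⟩ : ∃ x0 ∈ C, G.Adj v1 x0 ∧ nu G T c x0 = g v1 := by
    by_cases h1 : ρ (e1 v1) ≤ ρ (e2 v1)
    · refine ⟨p v1, hpC.1, hpC.2, ?_⟩
      change e1 v1 = if ρ (e1 v1) ≤ ρ (e2 v1) then e1 v1 else e2 v1
      rw [if_pos h1]
    · refine ⟨q v1, hqC.1, hqC.2, ?_⟩
      change e2 v1 = if ρ (e1 v1) ≤ ρ (e2 v1) then e1 v1 else e2 v1
      rw [if_neg h1]
  have hx0T := htop v1 hv1.1 hv1T x0 hx0C hvx0
  -- a second vertex at the same node gives a contradiction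
  have hfin : ∀ v2 ∈ R, v2 ≠ v1 → ∀ x, G.Adj v2 x → c x = T → nu G T c x = g v1 → False := by
    intro v2 hv2 hne2 x hv2x hxT hxn
    have hv2' := mem_inter.1 hv2
    have h1 : x ∈ NI G T c v2 := mem_NI.2 ⟨hv2x, hxT⟩
    rw [hpq v2 hv2'.2, mem_insert, mem_singleton] at h1
    have h2 : ρ (g v2) ≤ ρ (g v1) := by
      rcases h1 with h1 | h1
      · have := hg1 v2
        simp only [he1, ← h1, hxn] at this
        exact this
      · have := hg2 v2
        simp only [he2, ← h1, hxn] at this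
        exact this
    have h3 := hmin v2 hv2
    have h4 : g v2 = g v1 := hρ (le_antisymm h2 h3)
    exact hne2 (hm3 v2 hv2'.2 v1 hv1.2 (hfix v2 hv2'.1) (hfix v1 hv1.1) h4)
  by_cases hst : Star G T c x0
  · obtain ⟨hu1, hu2⟩ := nu_star hst
    obtain ⟨y, hy, hyv, hxy⟩ := two x0 hx0C v1
    by_cases hyU : Unf G T c y
    · have hyu : y = nu G T c x0 := unf_unique h hd hx0T hxy hyU hu1 hu2
      have huC : nu G T c x0 ∈ C := hyu ▸ hy
      have huT := hne x0 _ hx0T hu1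
      obtain ⟨x1, hx1, hx10, hux1⟩ := two _ huC x0
      have hx1T := htop _ huC huT x1 hx1 hux1
      have hst1 : Star G T c x1 := ⟨_, hux1.symm, hu2⟩
      obtain ⟨hw1, hw2⟩ := nu_star hst1
      have hnu1 : nu G T c x1 = nu G T c x0 := unf_unique h hd hx1T hw1 hw2 hux1.symm hu2
      obtain ⟨y1, hy1, hy1u, hxy1⟩ := two x1 hx1 (nu G T c x0)
      have hy1U : ¬ Unf G T c y1 := fun h1 => hy1u (unf_unique h hd hx1T hxy1 h1 hux1.symm hu2)
      have hy1F := hFFm y1 hy1 (hne x1 y1 hx1T hxy1) hy1U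
      have hy1v : y1 ≠ v1 := by
        intro h1
        rw [h1] at hxy1
        have h2 := hall h hd (X := {v1}) (by rw [singleton_subset_iff]; exact hv1.2)
        rw [card_singleton] at h2
        obtain ⟨x, hx⟩ := card_pos.1 h2
        obtain ⟨hxT, v, hv, hxv, -, hns⟩ := mem_NS.1 hx
        rw [mem_singleton] at hv
        subst hv
        have h3 : ({x0, x1} : Finset V) = NI G T c v := by
          apply eq_of_subset_of_card_le
          · intro z hz
            rw [mem_insert, mem_singleton] at hz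
            rcases hz with rfl | rfl
            · exact mem_NI.2 ⟨hvx0, hx0T⟩
            · exact mem_NI.2 ⟨hxy1.symm, hx1T⟩
          · rw [NI_eq h hd hv1.2, card_pair hx10.symm]
        have h4 : x ∈ NI G T c v := mem_NI.2 ⟨hxv.symm, hxT⟩
        rw [← h3, mem_insert, mem_singleton] at h4
        rcases h4 with rfl | rfl
        · exact hns hst
        · exact hns hst1
      exact hfin y1 (mem_inter.2 ⟨hy1, hy1F⟩) hy1v x1 hxy1.symm hx1T (hnu1.trans hx0n)
    · exact hfin y (mem_inter.2 ⟨hy, hFFm y hy (hne x0 y hx0T hxy) hyU⟩) hyv x0 hxy.symm hx0T hx0n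
  · obtain ⟨y, hy, hyv, hxy⟩ := two x0 hx0C v1
    have hyU : ¬ Unf G T c y := fun h1 => hst ⟨y, hxy, h1⟩
    exact hfin y (mem_inter.2 ⟨hy, hFFm y hy (hne x0 y hx0T hxy) hyU⟩) hyv x0 hxy.symm hx0T hx0n

end Pool.Agent.U369.HY
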