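import Pool.Agent.U369.HY.Opt

/-!
# Hall's condition for all colours, a degeneracy order, the extension lemma of Fournier
-/

set_option autoImplicit false
open Classical Finset

namespace Pool.Agent.U369.HY

open Pool.Q6.CI Pool.Q11.TwoEnd

variable {V : Type*} [Fintype V] {G : SimpleGraph V} {T : ℕ} {c : V → ℕ}

theorem NS_mono {X Y : Finset V} (h : X ⊆ Y) : NS G T c X ⊆ NS G T c Y := by
  intro x hx
  rw [mem_NS] at hx ⊢
  obtain ⟨h1, v, hv, h2⟩ := hx
  exact ⟨h1, v, h hv, h2⟩

/-- **Hall's condition** -/
theorem hall (h : Opt G T c) (hd : ∀ v, dg G v ≤ T + 1) {X : Finset V} (hX : X ⊆ FF G T c) :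
    X.card ≤ (NS G T c X).card := by
  have h1 : ∀ v ∈ X, c v ∈ range T := fun v hv => mem_range.2 (h.lt (mem_FF.1 (hX hv)).1)
  have h2 : X.card = ∑ a ∈ range T, (X.filter fun v => c v = a).card :=
    card_eq_sum_card_fiberwise h1
  have h3 : ∀ a ∈ range T, (X.filter fun v => c v = a).card ≤
      (NS G T c (X.filter fun v => c v = a)).card := by
    intro a ha
    refine hall_one h hd (mem_range.1 ha) ((filter_subset _ _).trans hX) ?_
    intro v hv
    exact (mem_filter.1 hv).2
  have h4 : ((range T).biUnion fun a => NS G T c (X.filter fun v => c v = a)).card =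
      ∑ a ∈ range T, (NS G T c (X.filter fun v => c v = a)).card := by
    apply card_biUnion
    intro a _ b _ hab
    rw [Function.onFun, disjoint_left]
    intro x hxa hxb
    obtain ⟨hxT, v, hv, hr1, ⟨w, hw1, hw2, hw3⟩, -⟩ := mem_NS.1 hxa
    obtain ⟨-, v', hv', hr1', ⟨w', hw1', hw2', hw3'⟩, -⟩ := mem_NS.1 hxb
    have e1 := (mem_filter.1 hv).2
    have e2 := (mem_filter.1 hv').2
    rcases pair h hd hxT hr1 hw2 hr1' hw2' hw1.symm hw3.symm hw1'.symm hw3'.symm with h5 | h5
    · exact hab (by rw [← e1, ← e2, h5])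
    · exact hab (by rw [← e1, ← e2, h5, hw3'])
  have h5 : ((range T).biUnion fun a => NS G T c (X.filter fun v => c v = a)) ⊆ NS G T c X := by
    intro x hx
    rw [mem_biUnion] at hx
    obtain ⟨a, -, hx⟩ := hx
    exact NS_mono (filter_subset _ _) hx
  calc X.card = ∑ a ∈ range T, (X.filter fun v => c v = a).card := h2
    _ ≤ ∑ a ∈ range T, (NS G T c (X.filter fun v => c v = a)).card := sum_le_sum h3
    _ = _ := h4.symm
    _ ≤ (NS G T c X).card := card_le_card h5

/-- a degeneracy order -/
theorem order {α β : Type*} [Fintype β] (F : Finset α) (e1 e2 : α → β) (k : ℕ)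
    (H : ∀ N : Finset β, N.Nonempty → ∃ n ∈ N,
      (F.filter fun v => e1 v ∈ N ∧ e2 v ∈ N ∧ (e1 v = n ∨ e2 v = n)).card ≤ k) :
    ∃ ρ : β → ℕ, Function.Injective ρ ∧ ∀ n, (F.filter fun v =>
      (e1 v = n ∧ ρ n ≤ ρ (e2 v)) ∨ (e2 v = n ∧ ρ n ≤ ρ (e1 v))).card ≤ k := by
  have key : ∀ N : Finset β, ∃ ρ : β → ℕ, Set.InjOn ρ N ∧ ∀ n ∈ N, (F.filter fun v =>
      e1 v ∈ N ∧ e2 v ∈ N ∧
      ((e1 v = n ∧ ρ n ≤ ρ (e2 v)) ∨ (e2 v = n ∧ ρ n ≤ ρ (e1 v)))).card ≤ k := by
    intro N
    induction N using Finset.strongInduction with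
    | H N ih =>
      by_cases hN : N.Nonempty
      · obtain ⟨n0, hn0, hk⟩ := H N hN
        obtain ⟨ρ, hρ1, hρ2⟩ := ih (N.erase n0) (erase_ssubset hn0)
        refine ⟨fun n => if n = n0 then 0 else ρ n + 1, ?_, ?_⟩
        · intro a ha b hb hab
          simp only at hab
          by_cases ha0 : a = n0 <;> by_cases hb0 : b = n0
          · rw [ha0, hb0]
          · rw [if_pos ha0, if_neg hb0] at hab
            omega
          · rw [if_neg ha0, if_pos hb0] at hab
            omega
          · rw [if_neg ha0, if_neg hb0] at hab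
            exact hρ1 (by simpa [ha0] using ha) (by simpa [hb0] using hb) (by omega)
        · intro n hn
          by_cases hnn : n = n0
          · refine (card_le_card ?_).trans hk
            intro v hv
            rw [mem_filter] at hv ⊢
            obtain ⟨h1, h2, h3, h4⟩ := hv
            refine ⟨h1, h2, h3, ?_⟩
            rcases h4 with h4 | h4
            · exact Or.inl (h4.1.trans hnn)
            · exact Or.inr (h4.1.trans hnn)
          · refine (card_le_card ?_).trans (hρ2 n (mem_erase.2 ⟨hnn, hn⟩))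
            intro v hv
            rw [mem_filter] at hv ⊢
            obtain ⟨h1, h2, h3, h4⟩ := hv
            simp only [if_neg hnn] at h4
            rcases h4 with ⟨h4, h5⟩ | ⟨h4, h5⟩
            · have h6 : e2 v ≠ n0 := by
                intro h6
                rw [if_pos h6] at h5
                omega
              rw [if_neg h6] at h5
              refine ⟨h1, mem_erase.2 ⟨h4 ▸ hnn, h2⟩, mem_erase.2 ⟨h6, h3⟩, Or.inl ⟨h4, by omega⟩⟩
            · have h6 : e1 v ≠ n0 := by
                intro h6
                rw [if_pos h6] at h5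
                omega
              rw [if_neg h6] at h5
              refine ⟨h1, mem_erase.2 ⟨h6, h2⟩, mem_erase.2 ⟨h4 ▸ hnn, h3⟩, Or.inr ⟨h4, by omega⟩⟩
      · rw [not_nonempty_iff_eq_empty] at hN
        subst hN
        exact ⟨fun _ => 0, by simp, by simp⟩
  obtain ⟨ρ, h1, h2⟩ := key univ
  refine ⟨ρ, fun a b hab => h1 (by simp) (by simp) hab, fun n => ?_⟩
  refine (card_le_card ?_).trans (h2 n (mem_univ _))
  intro v hv
  rw [mem_filter] at hv ⊢
  exact ⟨hv.1, mem_univ _, mem_univ _, hv.2⟩

/-- **Fournier's criterion**: if every nonempty set of vertices of degree `D` has a member with at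
most one neighbour in the set, then `D` colours suffice -/
theorem fournier {D : ℕ} (hD : 1 ≤ D) : ∀ (n : ℕ) (H : SimpleGraph V),
    (univ.filter fun v => dg H v = D).card = n → (∀ v, dg H v ≤ D) →
    (∀ C : Finset V, C.Nonempty → (∀ v ∈ C, dg H v = D) →
      ∃ w ∈ C, (C.filter fun y => H.Adj w y).card ≤ 1) → EC H D := by
  intro n
  induction n using Nat.strong_induction_on with
  | _ n ih =>
    intro H hn hd hC
    by_cases hne : (univ.filter fun v => dg H v = D).Nonempty
    · obtain ⟨w, hw, hw1⟩ := hC _ hne (fun v hv => (mem_filter.1 hv).2)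
      have hle : delV H w ≤ H := delV_le H w
      have hww : dg (delV H w) w = 0 := by
        unfold dg
        rw [card_eq_zero, filter_eq_empty_iff]
        intro y _ hy
        exact hy.2.1 rfl
      refine ext_vertex (v := w) (hd w) (fun y _ => hd y) ?_ ?_
      · intro y y' hy hy' hdy hdy'
        exact card_le_one.1 hw1 y (by simp [hy, hdy]) y' (by simp [hy', hdy'])
      · refine ih _ ?_ (delV H w) rfl (fun v => (dg_mono hle v).trans (hd v)) ?_
        · rw [← hn]
          apply card_lt_card
          rw [ssubset_iff_of_subset]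
          · refine ⟨w, hw, ?_⟩
            intro h1
            have := (mem_filter.1 h1).2
            omega
          · intro v hv
            rw [mem_filter] at hv ⊢
            exact ⟨hv.1, le_antisymm (hd v) (hv.2 ▸ dg_mono hle v)⟩
        · intro C hCne hCd
          obtain ⟨z, hz, hz1⟩ := hC C hCne
            (fun v hv => le_antisymm (hd v) ((hCd v hv) ▸ dg_mono hle v))
          refine ⟨z, hz, (card_le_card ?_).trans hz1⟩
          intro y hy
          rw [mem_filter] at hy ⊢
          exact ⟨hy.1, hle hy.2⟩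
    · rw [not_nonempty_iff_eq_empty, filter_eq_empty_iff] at hne
      have h1 : ∀ v, dg H v ≤ D - 1 := by
        intro v
        have h2 := hd v
        have h3 := hne (mem_univ v)
        omega
      have h2 := vizing h1
      rwa [Nat.sub_add_cancel hD] at h2

end Pool.Agent.U369.HY
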