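import Pool.Agent.U369.HY.Brooks
import Pool.Agent.U369.HY.Core

/-!
# The labellings
-/

set_option autoImplicit false
open Classical Finset

namespace Pool.Agent.U369.HY

open Pool.Q6.CI Pool.Q11.TwoEnd

variable {V : Type*}

/-- a `(p,1)`-total labelling with the labels `0, …, l` -/
def TL (G : SimpleGraph V) (p l : ℕ) : Prop :=
  ∃ (fV : V → ℕ) (fE : Sym2 V → ℕ),
    (∀ v, fV v ≤ l) ∧ (∀ e ∈ G.edgeSet, fE e ≤ l) ∧
    (∀ u v, G.Adj u v → fV u ≠ fV v) ∧
    (∀ u v w, G.Adj u v → G.Adj u w → v ≠ w → fE s(u, v) ≠ fE s(u, w)) ∧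
    (∀ u v, G.Adj u v → (p : ℤ) ≤ |(fV u : ℤ) - (fE s(u, v) : ℤ)|)

/-- from a symmetric function on ordered pairs -/
theorem TL.mk' {G : SimpleGraph V} {p l : ℕ} (fV : V → ℕ) (f : V → V → ℕ)
    (h0 : ∀ u v, G.Adj u v → f u v = f v u) (h1 : ∀ v, fV v ≤ l)
    (h2 : ∀ u v, G.Adj u v → f u v ≤ l) (h3 : ∀ u v, G.Adj u v → fV u ≠ fV v)
    (h4 : ∀ u v w, G.Adj u v → G.Adj u w → v ≠ w → f u v ≠ f u w)
    (h5 : ∀ u v, G.Adj u v → (p : ℤ) ≤ |(fV u : ℤ) - (f u v : ℤ)|) : TL G p l := by
  have hs : ∀ a b, (if G.Adj a b then f a b else 0) = if G.Adj b a then f b a else 0 := by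
    intro a b
    by_cases hab : G.Adj a b
    · rw [if_pos hab, if_pos hab.symm, h0 a b hab]
    · rw [if_neg hab, if_neg (fun h => hab h.symm)]
  refine ⟨fV, Sym2.lift ⟨fun a b => if G.Adj a b then f a b else 0, hs⟩, h1, ?_, h3, ?_, ?_⟩
  · intro e
    induction e using Sym2.ind with
    | _ a b =>
      intro hab
      rw [SimpleGraph.mem_edgeSet] at hab
      rw [Sym2.lift_mk]
      simp only [if_pos hab]
      exact h2 a b hab
  · intro u v w huv huw hvw
    rw [Sym2.lift_mk, Sym2.lift_mk]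
    simp only [if_pos huv, if_pos huw]
    exact h4 u v w huv huw hvw
  · intro u v huv
    rw [Sym2.lift_mk]
    simp only [if_pos huv]
    exact h5 u v huv

theorem TL.fn {G : SimpleGraph V} {p l : ℕ} (h : TL G p l) : ∃ (fV : V → ℕ) (f : V → V → ℕ),
    (∀ u v, G.Adj u v → f u v = f v u) ∧ (∀ v, fV v ≤ l) ∧
    (∀ u v, G.Adj u v → f u v ≤ l) ∧ (∀ u v, G.Adj u v → fV u ≠ fV v) ∧
    (∀ u v w, G.Adj u v → G.Adj u w → v ≠ w → f u v ≠ f u w) ∧
    (∀ u v, G.Adj u v → (p : ℤ) ≤ |(fV u : ℤ) - (f u v : ℤ)|) := by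
  obtain ⟨fV, fE, h1, h2, h3, h4, h5⟩ := h
  exact ⟨fV, fun a b => fE s(a, b), fun u v _ => by simp only [Sym2.eq_swap], h1,
    fun u v huv => h2 _ huv, h3, h4, h5⟩

variable [Fintype V]

/-- a best colouring -/
theorem exists_opt {G : SimpleGraph V} {T : ℕ} {c : V → ℕ} (h : Pr G T c) :
    ∃ c', Opt G T c' := by
  have hex : ∃ n, ∃ c', Pr G T c' ∧ (Top T c').card = n := ⟨_, c, h, rfl⟩
  obtain ⟨c', h1, h2⟩ := Nat.find_spec hex
  refine ⟨c', h1, fun c2 hc2 => ?_⟩
  rw [h2]
  exact Nat.find_min' hex ⟨c2, hc2, rfl⟩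

/-- **main theorem**: no `K_{D+1}` -/
theorem main_free (G : SimpleGraph V) (D p : ℕ) (hD : 4 ≤ D) (hd : ∀ v, dg G v ≤ D)
    (hk : G.CliqueFree (D + 1)) : TL G p (2 * D + p - 2) := by
  obtain ⟨c0, hc0⟩ := Br.brooks G (by omega) hd hk
  obtain ⟨T, rfl⟩ : ∃ T, D = T + 1 := ⟨D - 1, by omega⟩
  have hP : Pr G T (fun v => (c0 v : ℕ)) :=
    ⟨fun v => Nat.lt_succ_iff.1 (c0 v).2, fun v w hvw h => hc0 v w hvw (Fin.ext h)⟩
  obtain ⟨c, hc⟩ := exists_opt hP
  obtain ⟨m, hm1, hm2, κ, hκ⟩ := core_ok hc hd (by omega)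
  have hadj : ∀ a b, G.Adj a b → m a ≠ b → (rmM G m).Adj a b := by
    intro a b hab h1
    refine ⟨hab, h1, fun h2 => h1 ?_⟩
    rw [← h2, hm1]
  have hmm : ∀ a b, m a = b ↔ m b = a := by
    intro a b
    constructor
    · rintro rfl; exact hm1 a
    · rintro rfl; exact hm1 b
  refine TL.mk' c (fun a b => if m a = b then T - 1 + p else T + p + κ a b) ?_ ?_ ?_ ?_ ?_ ?_
  · intro a b hab
    by_cases h1 : m a = b
    · simp only [if_pos h1, if_pos ((hmm a b).1 h1)]
    · have h2 : ¬ m b = a := fun h3 => h1 ((hmm a b).2 h3)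
      simp only [if_neg h1, if_neg h2]
      rw [hκ.symm a b (hadj a b hab h1)]
  · intro v
    have := hc.1.1 v
    omega
  · intro a b hab
    by_cases h1 : m a = b
    · simp only [if_pos h1]
      omega
    · simp only [if_neg h1]
      have := hκ.lt a b (hadj a b hab h1)
      omega
  · exact hc.1.2
  · intro u v w huv huw hvw
    by_cases h1 : m u = v
    · have h2 : ¬ m u = w := fun h3 => hvw (h1.symm.trans h3)
      simp only [if_pos h1, if_neg h2]
      omega
    · by_cases h2 : m u = w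
      · simp only [if_neg h1, if_pos h2]
        omega
      · simp only [if_neg h1, if_neg h2]
        intro h3
        exact hvw (hκ.inj u v w (hadj u v huv h1) (hadj u w huw h2) (by omega))
  · intro u v huv
    have h0 := hc.1.1 u
    by_cases h1 : m u = v
    · simp only [if_pos h1]
      have h2 : m u ≠ u := by rw [h1]; exact huv.ne'
      have h3 := (hm2 u h2).2.1
      rw [abs_sub_comm, abs_of_nonneg] <;> push_cast <;> omega
    · simp only [if_neg h1]
      rw [abs_sub_comm, abs_of_nonneg] <;> push_cast <;> omega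

/-! ### complete graphs on `p + 2` vertices -/

/-- number of low vertices -/
def tt (p : ℕ) : ℕ := (p + 3) / 2

/-- number of high vertices -/
def rr (p : ℕ) : ℕ := (p + 2) / 2

/-- vertex labels of the complete graph -/
def kV (p i : ℕ) : ℕ := if i < tt p then i else 3 * p - (i - tt p)

/-- edge labels of the complete graph -/
def kE (p i j : ℕ) : ℕ :=
  if i < tt p then
    (if j < tt p then 2 * p + 1 + (i + j) % tt p else p + (i + (rr p - 1) - (j - tt p)))
  else (if j < tt p then p + (j + (rr p - 1) - (i - tt p)) else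
    (i - tt p + (j - tt p)) % rr p)

theorem mod_inj {a b c t : ℕ} (hb : b < t) (hc : c < t) (h : (a + b) % t = (a + c) % t) :
    b = c := by
  have h1 : (a + b) ≡ (a + c) [MOD t] := h
  have h2 : b ≡ c [MOD t] := Nat.ModEq.add_left_cancel' a h1
  exact Nat.ModEq.eq_of_lt_of_lt h2 hb hc

theorem kE_symm (p i j : ℕ) : kE p i j = kE p j i := by
  unfold kE
  by_cases h1 : i < tt p <;> by_cases h2 : j < tt p
  · simp only [if_pos h1, if_pos h2, add_comm i j]
  · simp only [if_pos h1, if_neg h2]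
  · simp only [if_neg h1, if_pos h2]
  · simp only [if_neg h1, if_neg h2, add_comm (i - tt p) (j - tt p)]

theorem tt_add_rr (p : ℕ) : tt p + rr p = p + 2 := by
  unfold tt rr
  omega

theorem kV_le {p i : ℕ} (hp : 3 ≤ p) : kV p i ≤ 3 * p := by
  have h0 : tt p ≤ p := by unfold tt; omega
  unfold kV
  split_ifs <;> omega

theorem kV_ne {p i j : ℕ} (hp : 3 ≤ p) (hi : i < p + 2) (hj : j < p + 2) (h : i ≠ j) :
    kV p i ≠ kV p j := by
  have h0 : tt p ≤ p := by unfold tt; omega
  have h1 : rr p ≤ p := by unfold rr; omega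
  have h2 := tt_add_rr p
  unfold kV
  split_ifs <;> omega

theorem kE_le {p i j : ℕ} (hp : 3 ≤ p) (hi : i < p + 2) (hj : j < p + 2) :
    kE p i j ≤ 3 * p := by
  have h0 : tt p ≤ p := by unfold tt; omega
  have h1 : rr p ≤ p := by unfold rr; omega
  have h2 := tt_add_rr p
  have h3 : (i + j) % tt p < tt p := Nat.mod_lt _ (by unfold tt; omega)
  have h4 : (i - tt p + (j - tt p)) % rr p < rr p := Nat.mod_lt _ (by unfold rr; omega)
  unfold kE
  split_ifs <;> omega

theorem kE_ne {p i j k : ℕ} (hp : 3 ≤ p) (hi : i < p + 2) (hj : j < p + 2) (hk : k < p + 2)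
    (hjk : j ≠ k) : kE p i j ≠ kE p i k := by
  have h0 : tt p ≤ p := by unfold tt; omega
  have h1 : rr p ≤ p := by unfold rr; omega
  have h2 := tt_add_rr p
  have h3 : ∀ x, x % tt p < tt p := fun x => Nat.mod_lt _ (by unfold tt; omega)
  have h4 : ∀ x, x % rr p < rr p := fun x => Nat.mod_lt _ (by unfold rr; omega)
  have h3j := h3 (i + j)
  have h3k := h3 (i + k)
  have h4j := h4 (i - tt p + (j - tt p))
  have h4k := h4 (i - tt p + (k - tt p))
  unfold kE
  by_cases hit : i < tt p <;> by_cases hjt : j < tt p <;> by_cases hkt : k < tt p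
  · simp only [if_pos hit, if_pos hjt, if_pos hkt]
    intro h
    exact hjk (mod_inj (a := i) hjt hkt (by omega))
  · simp only [if_pos hit, if_pos hjt, if_neg hkt]
    omega
  · simp only [if_pos hit, if_neg hjt, if_pos hkt]
    omega
  · simp only [if_pos hit, if_neg hjt, if_neg hkt]
    omega
  · simp only [if_neg hit, if_pos hjt, if_pos hkt]
    omega
  · simp only [if_neg hit, if_pos hjt, if_neg hkt]
    omega
  · simp only [if_neg hit, if_neg hjt, if_pos hkt]
    omega
  · simp only [if_neg hit, if_neg hjt, if_neg hkt]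
    intro h
    have := mod_inj (b := j - tt p) (c := k - tt p) (by omega) (by omega) h
    omega

theorem kE_dist {p i j : ℕ} (hp : 3 ≤ p) (hi : i < p + 2) (hj : j < p + 2) :
    (p : ℤ) ≤ |(kV p i : ℤ) - (kE p i j : ℤ)| := by
  have h0 : tt p ≤ p := by unfold tt; omega
  have h1 : rr p ≤ p := by unfold rr; omega
  have h2 := tt_add_rr p
  have h3 : (i + j) % tt p < tt p := Nat.mod_lt _ (by unfold tt; omega)
  have h4 : (i - tt p + (j - tt p)) % rr p < rr p := Nat.mod_lt _ (by unfold rr; omega)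
  unfold kE kV
  by_cases hit : i < tt p <;> by_cases hjt : j < tt p
  · simp only [if_pos hit, if_pos hjt]
    rw [abs_sub_comm]
    exact le_trans (by omega) (le_abs_self _)
  · simp only [if_pos hit, if_neg hjt]
    rw [abs_sub_comm]
    exact le_trans (by omega) (le_abs_self _)
  · simp only [if_neg hit, if_pos hjt]
    exact le_trans (by omega) (le_abs_self _)
  · simp only [if_neg hit, if_neg hjt]
    exact le_trans (by omega) (le_abs_self _)

/-- **the case `p = Δ - 1`** -/
theorem main_all (G : SimpleGraph V) (p : ℕ) (hp : 3 ≤ p) (hd : ∀ v, dg G v ≤ p + 1) :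
    TL G p (3 * p) := by
  -- the vertices of the complete components
  set A : V → Prop := fun v => ∃ s : Finset V, G.IsNClique (p + 2) s ∧ v ∈ s with hA
  have hAs : ∀ s : Finset V, G.IsNClique (p + 2) s → ∀ v ∈ s, ∀ w, G.Adj v w → w ∈ s := by
    intro s hs v hv w hvw
    have h1 : s.erase v ⊆ univ.filter fun w => G.Adj v w := by
      intro z hz
      rw [mem_erase] at hz
      rw [mem_filter]
      exact ⟨mem_univ _, hs.1 hv hz.2 hz.1.symm⟩
    have h2 : s.erase v = univ.filter fun w => G.Adj v w := by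
      apply eq_of_subset_of_card_le h1
      rw [card_erase_of_mem hv, hs.2]
      exact hd v
    have h3 : w ∈ s.erase v := by
      rw [h2, mem_filter]
      exact ⟨mem_univ _, hvw⟩
    exact (mem_erase.1 h3).2
  have hAadj : ∀ v w, G.Adj v w → A v → A w := by
    rintro v w hvw ⟨s, hs, hv⟩
    exact ⟨s, hs, hAs s hs v hv w hvw⟩
  have htri : ∀ u v w, A u → G.Adj u v → G.Adj u w → v ≠ w → G.Adj v w := by
    rintro u v w ⟨s, hs, hu⟩ huv huw hvw
    exact hs.1 (hAs s hs u hu v huv) (hAs s hs u hu w huw) hvw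
  -- the rest
  let G1 : SimpleGraph V :=
    { Adj := fun a b => G.Adj a b ∧ ¬ A a
      symm := ⟨fun a b h => ⟨h.1.symm, fun h2 => h.2 (hAadj b a h.1.symm h2)⟩⟩
      loopless := ⟨fun a h => h.1.ne rfl⟩ }
  have hle : G1 ≤ G := fun _ _ h => h.1
  have hfree : G1.CliqueFree (p + 1 + 1) := by
    intro s hs
    have h1 : G.IsNClique (p + 2) s := ⟨fun a ha b hb hab => (hs.1 ha hb hab).1, hs.2⟩
    obtain ⟨a, ha, b, hb, hab⟩ := one_lt_card.1 (by rw [h1.2]; omega : 1 < s.card)
    exact (hs.1 ha hb hab).2 ⟨s, h1, ha⟩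
  obtain ⟨gV, g, g0, g1, g2, g3, g4, g5⟩ := TL.fn (main_free G1 (p + 1) p (by omega)
    (fun v => (dg_mono hle v).trans (hd v)) hfree)
  have e3 : 2 * (p + 1) + p - 2 = 3 * p := by omega
  rw [e3] at g1 g2
  -- positions in the complete components
  let ord : V → ℕ := fun v => (Fintype.equivFin V v : ℕ)
  have hord : ∀ v w, ord v = ord w → v = w := fun v w h =>
    (Fintype.equivFin V).injective (Fin.ext h)
  let pos : V → ℕ := fun v => (univ.filter fun w => G.Adj v w ∧ ord w < ord v).card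
  have hpos : ∀ v, pos v < p + 2 := by
    intro v
    have h1 : pos v ≤ dg G v := by
      apply card_le_card
      intro w hw
      rw [mem_filter] at hw ⊢
      exact ⟨hw.1, hw.2.1⟩
    have := hd v
    omega
  have hlt : ∀ v w, A v → G.Adj v w → ord v < ord w → pos v < pos w := by
    intro v w hv hvw hlt
    apply card_lt_card
    rw [ssubset_iff_of_subset]
    · refine ⟨v, ?_, ?_⟩
      · rw [mem_filter]
        exact ⟨mem_univ _, hvw.symm, hlt⟩
      · rw [mem_filter]
        intro h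
        exact absurd h.2.2 (lt_irrefl _)
    · intro z hz
      rw [mem_filter] at hz ⊢
      refine ⟨hz.1, (htri v z w hv hz.2.1 hvw ?_).symm, hz.2.2.trans hlt⟩
      rintro rfl
      exact absurd (hz.2.2.trans hlt) (lt_irrefl _)
  have hposne : ∀ v w, A v → G.Adj v w → pos v ≠ pos w := by
    intro v w hv hvw
    rcases lt_trichotomy (ord v) (ord w) with h | h | h
    · exact (hlt v w hv hvw h).ne
    · exact absurd (hord v w h) hvw.ne
    · exact (hlt w v (hAadj v w hvw hv) hvw.symm h).ne'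
  refine TL.mk' (fun v => if A v then kV p (pos v) else gV v)
    (fun a b => if A a then kE p (pos a) (pos b) else g a b) ?_ ?_ ?_ ?_ ?_ ?_
  · intro u v huv
    by_cases hu : A u
    · simp only [if_pos hu, if_pos (hAadj u v huv hu)]
      exact kE_symm _ _ _
    · have hv : ¬ A v := fun h => hu (hAadj v u huv.symm h)
      simp only [if_neg hu, if_neg hv]
      exact g0 u v ⟨huv, hu⟩
  · intro v
    by_cases hv : A v
    · simp only [if_pos hv]
      exact kV_le hp
    · simp only [if_neg hv]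
      exact g1 v
  · intro u v huv
    by_cases hu : A u
    · simp only [if_pos hu]
      exact kE_le hp (hpos u) (hpos v)
    · simp only [if_neg hu]
      exact g2 u v ⟨huv, hu⟩
  · intro u v huv
    by_cases hu : A u
    · simp only [if_pos hu, if_pos (hAadj u v huv hu)]
      exact kV_ne hp (hpos u) (hpos v) (hposne u v hu huv)
    · have hv : ¬ A v := fun h => hu (hAadj v u huv.symm h)
      simp only [if_neg hu, if_neg hv]
      exact g3 u v ⟨huv, hu⟩
  · intro u v w huv huw hvw
    by_cases hu : A u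
    · simp only [if_pos hu]
      exact kE_ne hp (hpos u) (hpos v) (hpos w)
        (hposne v w (hAadj u v huv hu) (htri u v w hu huv huw hvw))
    · simp only [if_neg hu]
      exact g4 u v w ⟨huv, hu⟩ ⟨huw, hu⟩ hvw
  · intro u v huv
    by_cases hu : A u
    · simp only [if_pos hu]
      exact kE_dist hp (hpos u) (hpos v)
    · simp only [if_neg hu]
      exact g5 u v ⟨huv, hu⟩

end Pool.Agent.U369.HY
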