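import Pool.Agent.Q6.CI.Vizing

/-!
# Proper colourings with the smallest possible top class

`G` has maximum degree at most `T + 1`, the colours are `0, …, T`.
-/

set_option autoImplicit false
open Classical Finset

namespace Pool.Agent.U369.HY

open Pool.Q6.CI

variable {V : Type*} [Fintype V]

/-- proper colourings with the colours `0, …, T` -/
def Pr (G : SimpleGraph V) (T : ℕ) (c : V → ℕ) : Prop :=
  (∀ v, c v ≤ T) ∧ ∀ v w, G.Adj v w → c v ≠ c w

/-- the top class -/
noncomputable def Top (T : ℕ) (c : V → ℕ) : Finset V := univ.filter fun v => c v = T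

/-- the top class is as small as possible -/
def Opt (G : SimpleGraph V) (T : ℕ) (c : V → ℕ) : Prop :=
  Pr G T c ∧ ∀ c', Pr G T c' → (Top T c).card ≤ (Top T c').card

/-- neighbours in the top class -/
noncomputable def NI (G : SimpleGraph V) (T : ℕ) (c : V → ℕ) (v : V) : Finset V :=
  univ.filter fun x => G.Adj v x ∧ c x = T

/-- neighbours outside the top class -/
noncomputable def Out (G : SimpleGraph V) (T : ℕ) (c : V → ℕ) (v : V) : Finset V :=
  univ.filter fun x => G.Adj v x ∧ c x ≠ T

/-- `v` (outside the top class) can be given another colour below `T` -/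
def Unf (G : SimpleGraph V) (T : ℕ) (c : V → ℕ) (v : V) : Prop :=
  c v ≠ T ∧ ∃ b, b < T ∧ b ≠ c v ∧ ∀ w, G.Adj v w → c w ≠ b

/-- `x` has a neighbour which can be recoloured -/
def Star (G : SimpleGraph V) (T : ℕ) (c : V → ℕ) (x : V) : Prop :=
  ∃ u, G.Adj x u ∧ Unf G T c u

/-- the vertices with at least two neighbours in the top class which cannot be recoloured -/
noncomputable def FF (G : SimpleGraph V) (T : ℕ) (c : V → ℕ) : Finset V :=
  univ.filter fun v => c v ≠ T ∧ ¬ Unf G T c v ∧ 2 ≤ (NI G T c v).card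

/-- `x` is adjacent to `v`, to another vertex with the colour of `v`, and to no vertex that can be
recoloured -/
def Rg (G : SimpleGraph V) (T : ℕ) (c : V → ℕ) (x v : V) : Prop :=
  G.Adj x v ∧ (∃ w, w ≠ v ∧ G.Adj x w ∧ c w = c v) ∧ ¬ Star G T c x

/-- the top vertices `x` with `Rg x v` for some `v ∈ X` -/
noncomputable def NS (G : SimpleGraph V) (T : ℕ) (c : V → ℕ) (X : Finset V) : Finset V :=
  univ.filter fun x => c x = T ∧ ∃ v ∈ X, Rg G T c x v

variable {G : SimpleGraph V} {T : ℕ} {c : V → ℕ}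

theorem mem_NI {v x : V} : x ∈ NI G T c v ↔ G.Adj v x ∧ c x = T := by simp [NI]

theorem mem_Out {v x : V} : x ∈ Out G T c v ↔ G.Adj v x ∧ c x ≠ T := by simp [Out]

theorem mem_FF {v : V} : v ∈ FF G T c ↔ c v ≠ T ∧ ¬ Unf G T c v ∧ 2 ≤ (NI G T c v).card := by
  simp [FF]

theorem mem_NS {X : Finset V} {x : V} : x ∈ NS G T c X ↔ c x = T ∧ ∃ v ∈ X, Rg G T c x v := by
  simp [NS]

theorem Opt.lt (h : Opt G T c) {v : V} (hv : c v ≠ T) : c v < T :=
  lt_of_le_of_ne (h.1.1 v) hv

/-- recolouring vertices of one colour -/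
theorem recol (h : Opt G T c) {a : ℕ} (ha : a < T) (W : V → Prop) (b : V → ℕ)
    (hW : ∀ w, W w → c w = a ∧ b w < T ∧ ∀ z, G.Adj w z → c z ≠ b w) :
    Opt G T (fun v => if W v then b v else c v) := by
  have hP : Pr G T (fun v => if W v then b v else c v) := by
    refine ⟨?_, ?_⟩
    · intro v
      by_cases hv : W v
      · simp only [if_pos hv]
        exact (hW v hv).2.1.le
      · simp only [if_neg hv]
        exact h.1.1 v
    · intro v w hvw
      by_cases hv : W v <;> by_cases hw : W w
      · exact absurd ((hW v hv).1.trans (hW w hw).1.symm) (h.1.2 v w hvw)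
      · simp only [if_pos hv, if_neg hw]
        exact ((hW v hv).2.2 w hvw).symm
      · simp only [if_neg hv, if_pos hw]
        exact (hW w hw).2.2 v hvw.symm
      · simp only [if_neg hv, if_neg hw]
        exact h.1.2 v w hvw
  have hT : Top T (fun v => if W v then b v else c v) = Top T c := by
    unfold Top
    apply filter_congr
    intro v _
    by_cases hv : W v
    · simp only [if_pos hv]
      have h1 := hW v hv
      constructor
      · intro h2; omega
      · intro h2; omega
    · simp only [if_neg hv]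
  refine ⟨hP, fun c' hc' => ?_⟩
  rw [hT]
  exact h.2 c' hc'

/-- a top vertex sees all other colours -/
theorem see (h : Opt G T c) {x : V} (hx : c x = T) {b : ℕ} (hb : b < T) :
    ∃ w, G.Adj x w ∧ c w = b := by
  by_contra hcon
  push Not at hcon
  have hP : Pr G T (fun v => if v = x then b else c v) := by
    refine ⟨?_, ?_⟩
    · intro v
      by_cases hv : v = x
      · simp only [if_pos hv]; exact hb.le
      · simp only [if_neg hv]; exact h.1.1 v
    · intro v w hvw
      by_cases hv : v = x <;> by_cases hw : w = x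
      · exact absurd (hv.trans hw.symm) hvw.ne
      · simp only [if_pos hv, if_neg hw]
        subst hv
        exact (hcon w hvw).symm
      · simp only [if_neg hv, if_pos hw]
        subst hw
        exact hcon v hvw.symm
      · simp only [if_neg hv, if_neg hw]
        exact h.1.2 v w hvw
  have h1 := h.2 _ hP
  have h2 : Top T (fun v => if v = x then b else c v) ⊆ (Top T c).erase x := by
    intro v hv
    simp only [Top, mem_filter, mem_univ, true_and] at hv
    by_cases hvx : v = x
    · rw [if_pos hvx] at hv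
      omega
    · rw [if_neg hvx] at hv
      rw [mem_erase]
      exact ⟨hvx, by simp [Top, hv]⟩
  have hxT : x ∈ Top T c := by simp [Top, hx]
  have h3 := card_le_card h2
  rw [card_erase_of_mem hxT] at h3
  have h4 : 0 < (Top T c).card := card_pos.2 ⟨x, hxT⟩
  omega

/-- a top vertex has at most one pair of neighbours with the same colour -/
theorem pair (h : Opt G T c) (hd : ∀ v, dg G v ≤ T + 1) {x : V} (hx : c x = T)
    {w w' z z' : V} (hw : G.Adj x w) (hw' : G.Adj x w') (hz : G.Adj x z) (hz' : G.Adj x z')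
    (h1 : w ≠ w') (h2 : c w = c w') (h3 : z ≠ z') (h4 : c z = c z') : w = z ∨ w = z' := by
  by_contra hcon
  push Not at hcon
  obtain ⟨e, f, he, hf, hew, hfw, hew', hef, hce⟩ : ∃ e f, G.Adj x e ∧ G.Adj x f ∧ e ≠ w ∧
      f ≠ w ∧ e ≠ w' ∧ f ≠ e ∧ c f = c e := by
    by_cases hzw : z = w'
    · refine ⟨z', z, hz', hz, hcon.2.symm, hcon.1.symm, ?_, h3, h4⟩
      rintro rfl
      exact h3 hzw
    · exact ⟨z, z', hz, hz', hcon.1.symm, hcon.2.symm, hzw, h3.symm, h4.symm⟩
  set N : Finset V := univ.filter fun y => G.Adj x y with hN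
  have hNc : N.card ≤ T + 1 := hd x
  have hwT : c w < T := h.lt (fun h5 => h.1.2 x w hw (hx.trans h5.symm))
  have hsub : range T ⊆ ((N.erase w).erase e).image c := by
    intro b hb
    rw [mem_range] at hb
    obtain ⟨y, hy, hyb⟩ := see h hx hb
    rw [mem_image]
    by_cases h5 : y = w
    · refine ⟨w', ?_, by rw [← h2, ← h5, hyb]⟩
      rw [mem_erase, mem_erase]
      exact ⟨hew'.symm, h1.symm, by simp [hN, hw']⟩
    · by_cases h6 : y = e
      · refine ⟨f, ?_, by rw [hce, ← h6, hyb]⟩
        rw [mem_erase, mem_erase]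
        exact ⟨hef, hfw, by simp [hN, hf]⟩
      · refine ⟨y, ?_, hyb⟩
        rw [mem_erase, mem_erase]
        exact ⟨h6, h5, by simp [hN, hy]⟩
  have h5 := card_le_card hsub
  rw [card_range] at h5
  have h6 : (((N.erase w).erase e).image c).card ≤ ((N.erase w).erase e).card := card_image_le
  have hwN : w ∈ N := by simp [hN, hw]
  have heN : e ∈ N.erase w := by
    rw [mem_erase]
    exact ⟨hew, by simp [hN, he]⟩
  rw [card_erase_of_mem heN, card_erase_of_mem hwN] at h6
  omega

/-- a neighbour of a top vertex that can be recoloured is not the only one of its colour -/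
theorem unf_pair (h : Opt G T c) {x v : V} (hx : c x = T) (hxv : G.Adj x v)
    (hv : Unf G T c v) : ∃ w, w ≠ v ∧ G.Adj x w ∧ c w = c v := by
  obtain ⟨hvT, b, hb, hbv, hbn⟩ := hv
  have h' := recol h (h.lt hvT) (fun w => w = v) (fun _ => b) (by
    rintro w rfl
    exact ⟨rfl, hb, hbn⟩)
  have hxv' : ¬ x = v := hxv.ne
  obtain ⟨w, hw, hcw⟩ := see h' (x := x) (by simp only [if_neg hxv']; exact hx) (h.lt hvT)
  by_cases hwv : w = v
  · rw [if_pos hwv] at hcw
    exact absurd hcw hbv
  · rw [if_neg hwv] at hcw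
    exact ⟨w, hwv, hw, hcw⟩

/-- a top vertex has at most one neighbour that can be recoloured -/
theorem unf_unique (h : Opt G T c) (hd : ∀ v, dg G v ≤ T + 1) {x u u' : V} (hx : c x = T)
    (hxu : G.Adj x u) (hu : Unf G T c u) (hxu' : G.Adj x u') (hu' : Unf G T c u') : u = u' := by
  by_contra hne
  obtain ⟨w, hw1, hw2, hw3⟩ := unf_pair h hx hxu hu
  obtain ⟨w', hw1', hw2', hw3'⟩ := unf_pair h hx hxu' hu'
  have hcu : c u = c u' := by
    rcases pair h hd hx hxu hw2 hxu' hw2' hw1.symm hw3.symm hw1'.symm hw3'.symm with h1 | h1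
    · exact absurd h1 hne
    · rw [h1, hw3']
  obtain ⟨huT, b, hb, hbu, hbn⟩ := hu
  have h' := recol h (h.lt huT) (fun w => w = u) (fun _ => b) (by
    rintro w rfl
    exact ⟨rfl, hb, hbn⟩)
  have hux : ¬ x = u := hxu.ne
  have hu2 : Unf G T (fun v => if v = u then b else c v) u' := by
    obtain ⟨h1, b', hb', hbu', hbn'⟩ := hu'
    refine ⟨by simp only [if_neg (Ne.symm hne)]; exact h1, b', hb', ?_, ?_⟩
    · simp only [if_neg (Ne.symm hne)]; exact hbu'
    · intro z hz
      by_cases hzu : z = u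
      · exfalso
        subst hzu
        exact h.1.2 _ _ hz hcu.symm
      · simp only [if_neg hzu]
        exact hbn' z hz
  obtain ⟨y, hy1, hy2, hy3⟩ := unf_pair h' (x := x) (by simp only [if_neg hux]; exact hx) hxu' hu2
  simp only [if_neg (Ne.symm hne)] at hy3
  by_cases hyu : y = u
  · rw [if_pos hyu] at hy3
    exact hbu (hy3.trans hcu.symm)
  · rw [if_neg hyu] at hy3
    rcases pair h hd hx hy2 hxu' hxu hxu' hy1 hy3 hne hcu with h1 | h1
    · exact hyu h1
    · exact hy1 h1

theorem card_NI_add_Out (v : V) : (NI G T c v).card + (Out G T c v).card = dg G v := by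
  unfold NI Out dg
  rw [← filter_filter, ← filter_filter, card_filter_add_card_filter_not]

/-- a vertex that cannot be recoloured has `T - 1` neighbours outside the top class -/
theorem out_ge (h : Opt G T c) {v : V} (hv : c v ≠ T) (hf : ¬ Unf G T c v) :
    T - 1 ≤ (Out G T c v).card := by
  have hsub : (range T).erase (c v) ⊆ (Out G T c v).image c := by
    intro b hb
    rw [mem_erase, mem_range] at hb
    by_contra hcon
    apply hf
    refine ⟨hv, b, hb.2, hb.1, fun w hw hwb => hcon ?_⟩
    rw [mem_image]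
    refine ⟨w, mem_Out.2 ⟨hw, ?_⟩, hwb⟩
    omega
  have h1 := card_le_card hsub
  rw [card_erase_of_mem (mem_range.2 (h.lt hv)), card_range] at h1
  exact h1.trans card_image_le

theorem NI_le (h : Opt G T c) (hd : ∀ v, dg G v ≤ T + 1) {v : V} (hv : c v ≠ T)
    (hf : ¬ Unf G T c v) : (NI G T c v).card ≤ 2 := by
  have h1 := out_ge h hv hf
  have h2 := card_NI_add_Out (G := G) (T := T) (c := c) v
  have h3 := hd v
  have h4 := h.lt hv
  omega

theorem NI_eq (h : Opt G T c) (hd : ∀ v, dg G v ≤ T + 1) {v : V} (hv : v ∈ FF G T c) :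
    (NI G T c v).card = 2 := by
  rw [mem_FF] at hv
  exact le_antisymm (NI_le h hd hv.1 hv.2.1) hv.2.2

/-- two neighbours with the same colour that cannot be recoloured -/
theorem rg_of_two (h : Opt G T c) (hd : ∀ v, dg G v ≤ T + 1) {x v w : V} (hx : c x = T)
    (hxv : G.Adj x v) (hxw : G.Adj x w) (hvw : v ≠ w) (hc : c w = c v)
    (hv : ¬ Unf G T c v) (hw : ¬ Unf G T c w) : Rg G T c x v := by
  refine ⟨hxv, ⟨w, hvw.symm, hxw, hc⟩, ?_⟩
  rintro ⟨u, hxu, hu⟩
  obtain ⟨w', h1, h2, h3⟩ := unf_pair h hx hxu hu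
  rcases pair h hd hx hxu h2 hxv hxw h1.symm h3.symm hvw hc.symm with h4 | h4
  · exact hv (h4 ▸ hu)
  · exact hw (h4 ▸ hu)

/-- **Hall's condition** for one colour -/
theorem hall_one (h : Opt G T c) (hd : ∀ v, dg G v ≤ T + 1) {a : ℕ} (ha : a < T)
    {X : Finset V} (hX : X ⊆ FF G T c) (hXa : ∀ v ∈ X, c v = a) :
    X.card ≤ (NS G T c X).card := by
  by_contra hcon
  push Not at hcon
  -- a maximal violating set
  let P : Finset V → Prop := fun Z => (∀ z ∈ Z, c z = a ∧ ¬ Unf G T c z ∧
    1 ≤ (NI G T c z).card) ∧ (NS G T c Z).card < (Z ∩ FF G T c).card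
  have hPX : X ∈ (univ : Finset (Finset V)).filter P := by
    rw [mem_filter]
    refine ⟨mem_univ _, fun z hz => ?_, ?_⟩
    · have h1 := mem_FF.1 (hX hz)
      exact ⟨hXa z hz, h1.2.1, by omega⟩
    · rwa [inter_eq_left.2 hX]
  obtain ⟨Z, hZ, hmax⟩ := exists_max_image _ card ⟨X, hPX⟩
  rw [mem_filter] at hZ
  obtain ⟨-, hZ1, hZ2⟩ := hZ
  have hcl : ∀ x ∈ NS G T c Z, ∀ w, G.Adj x w → c w = a → w ∈ Z := by
    intro x hx w hxw hwa
    by_contra hwZ
    obtain ⟨hxT, v, hvZ, hxv, -, hst⟩ := mem_NS.1 hx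
    have hwf : ¬ Unf G T c w := fun h1 => hst ⟨w, hxw, h1⟩
    have hwT : c w ≠ T := by omega
    have hxNI : x ∈ NI G T c w := mem_NI.2 ⟨hxw.symm, hxT⟩
    have hsub : NS G T c (insert w Z) ⊆ NS G T c Z ∪ (NI G T c w).erase x := by
      intro y hy
      rw [mem_union]
      by_cases hyZ : y ∈ NS G T c Z
      · exact Or.inl hyZ
      · refine Or.inr ?_
        obtain ⟨hyT, v', hv', hr⟩ := mem_NS.1 hy
        rw [mem_insert] at hv'
        rcases hv' with rfl | hv'
        · rw [mem_erase]
          refine ⟨?_, mem_NI.2 ⟨hr.1.symm, hyT⟩⟩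
          rintro rfl
          exact hyZ hx
        · exact absurd (mem_NS.2 ⟨hyT, v', hv', hr⟩) hyZ
    have hc1 := card_le_card hsub
    have hc2 := card_union_le (NS G T c Z) ((NI G T c w).erase x)
    rw [card_erase_of_mem hxNI] at hc2
    have hc3 := NI_le h hd hwT hwf
    have hpos : 0 < (NI G T c w).card := card_pos.2 ⟨x, hxNI⟩
    have hP' : insert w Z ∈ (univ : Finset (Finset V)).filter P := by
      rw [mem_filter]
      refine ⟨mem_univ _, ?_, ?_⟩
      · intro z hz
        rw [mem_insert] at hz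
        rcases hz with rfl | hz
        · exact ⟨hwa, hwf, hpos⟩
        · exact hZ1 z hz
      · by_cases hwF : w ∈ FF G T c
        · rw [insert_inter_of_mem hwF, card_insert_of_notMem (fun h1 => hwZ (mem_inter.1 h1).1)]
          omega
        · rw [insert_inter_of_notMem hwF]
          have : (NI G T c w).card < 2 := by
            by_contra h1
            exact hwF (mem_FF.2 ⟨hwT, hwf, by omega⟩)
          omega
    have h1 := hmax _ hP'
    rw [card_insert_of_notMem hwZ] at h1
    omega
  -- the swap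
  set NZ : Finset V := Z.biUnion (NI G T c) with hNZ
  have hmemNZ : ∀ x, x ∈ NZ ↔ ∃ z ∈ Z, G.Adj z x ∧ c x = T := by
    intro x
    simp only [hNZ, mem_biUnion, mem_NI]
  have hfr : ∀ v, Unf G T c v → ∃ b, b < T ∧ b ≠ c v ∧ ∀ w, G.Adj v w → c w ≠ b :=
    fun v hv => hv.2
  choose! fr hfr using hfr
  set c1 : V → ℕ := fun v => if c v = a ∧ Unf G T c v then fr v else c v with hc1
  have h1 : Opt G T c1 := by
    have h2 := recol h ha (fun v => c v = a ∧ Unf G T c v) fr (by
      intro w hw
      exact ⟨hw.1, (hfr w hw.2).1, (hfr w hw.2).2.2⟩)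
    convert h2
  have hc1T : ∀ v, c1 v = T ↔ c v = T := by
    intro v
    by_cases hv : c v = a ∧ Unf G T c v
    · simp only [hc1, if_pos hv]
      have := (hfr v hv.2).1
      constructor
      · intro h2; omega
      · intro h2; omega
    · simp only [hc1, if_neg hv]
  have hc1a : ∀ v, c1 v = a → c v = a ∧ ¬ Unf G T c v ∨ (c v ≠ a ∧ c1 v = c v) := by
    intro v hv
    by_cases hva : c v = a
    · by_cases hvu : Unf G T c v
      · simp only [hc1, if_pos (And.intro hva hvu)] at hv
        exact absurd (hv.trans hva.symm) (hfr v hvu).2.1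
      · exact Or.inl ⟨hva, hvu⟩
    · refine Or.inr ⟨hva, ?_⟩
      simp only [hc1, if_neg (fun h2 : c v = a ∧ Unf G T c v => hva h2.1)]
  set c2 : V → ℕ := fun v => if v ∈ Z then T else if v ∈ NZ then a else c1 v with hc2
  have hZNZ : ∀ z ∈ Z, z ∉ NZ := by
    intro z hz hz'
    obtain ⟨-, -, -, h3⟩ := (hmemNZ z).1 hz'
    have := (hZ1 z hz).1
    omega
  have hcase : ∀ v w, G.Adj v w → v ∈ Z → c2 v ≠ c2 w := by
    intro v w hvw hv
    have hv2 : c2 v = T := by simp only [hc2, if_pos hv]
    rw [hv2]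
    by_cases hwZ : w ∈ Z
    · exact absurd ((hZ1 v hv).1.trans (hZ1 w hwZ).1.symm) (h.1.2 v w hvw)
    · by_cases hwN : w ∈ NZ
      · simp only [hc2, if_neg hwZ, if_pos hwN]
        omega
      · simp only [hc2, if_neg hwZ, if_neg hwN]
        intro h3
        apply hwN
        rw [hmemNZ]
        exact ⟨v, hv, hvw, (hc1T w).1 h3.symm⟩
  have hcase2 : ∀ v w, G.Adj v w → v ∈ NZ → w ∉ Z → c2 v ≠ c2 w := by
    intro v w hvw hv hwZ
    have hvZ : v ∉ Z := fun h3 => hZNZ v h3 hv
    have hv2 : c2 v = a := by simp only [hc2, if_neg hvZ, if_pos hv]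
    rw [hv2]
    obtain ⟨z, hz, hzv, hvT⟩ := (hmemNZ v).1 hv
    have hwN : w ∉ NZ := by
      intro h3
      obtain ⟨-, -, -, h4⟩ := (hmemNZ w).1 h3
      exact h.1.2 v w hvw (hvT.trans h4.symm)
    simp only [hc2, if_neg hwZ, if_neg hwN]
    intro h3
    rcases hc1a w h3.symm with h4 | h4
    · have hzw : z ≠ w := by
        rintro rfl
        exact hwZ hz
      have hr := rg_of_two h hd hvT hzv.symm hvw hzw (h4.1.trans (hZ1 z hz).1.symm)
        (hZ1 z hz).2.1 h4.2
      exact hwZ (hcl v (mem_NS.2 ⟨hvT, z, hz, hr⟩) w hvw h4.1)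
    · exact h4.1 (h4.2.symm.trans h3.symm)
  have hP2 : Pr G T c2 := by
    refine ⟨?_, ?_⟩
    · intro v
      simp only [hc2]
      split_ifs
      · exact le_refl _
      · exact ha.le
      · exact h1.1.1 v
    · intro v w hvw
      by_cases hv : v ∈ Z
      · exact hcase v w hvw hv
      · by_cases hw : w ∈ Z
        · exact (hcase w v hvw.symm hw).symm
        · by_cases hvN : v ∈ NZ
          · exact hcase2 v w hvw hvN hw
          · by_cases hwN : w ∈ NZ
            · exact (hcase2 w v hvw.symm hwN hv).symm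
            · simp only [hc2, if_neg hv, if_neg hw, if_neg hvN, if_neg hwN]
              exact h1.1.2 v w hvw
  have hTop : Top T c2 ⊆ (Top T c \ NZ) ∪ Z := by
    intro v hv
    simp only [Top, mem_filter, mem_univ, true_and] at hv
    rw [mem_union, mem_sdiff]
    by_cases hvZ : v ∈ Z
    · exact Or.inr hvZ
    · by_cases hvN : v ∈ NZ
      · simp only [hc2, if_neg hvZ, if_pos hvN] at hv
        omega
      · simp only [hc2, if_neg hvZ, if_neg hvN] at hv
        exact Or.inl ⟨by simp [Top, (hc1T v).1 hv], hvN⟩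
  have hNT : NZ ⊆ Top T c := by
    intro x hx
    obtain ⟨-, -, -, h3⟩ := (hmemNZ x).1 hx
    simp [Top, h3]
  have hle : NZ.card ≤ Z.card := by
    have e1 := h.2 c2 hP2
    have e2 := card_le_card hTop
    have e3 := card_union_le (Top T c \ NZ) Z
    have e4 := card_sdiff_add_card_eq_card hNT
    omega
  -- double counting
  have hcount : ∑ z ∈ Z, (NI G T c z).card = ∑ x ∈ NZ, (Z.filter fun z => G.Adj z x).card := by
    have e1 : ∀ z ∈ Z, (NI G T c z).card = ∑ x ∈ NZ, if G.Adj z x then 1 else 0 := by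
      intro z hz
      rw [← card_filter]
      congr 1
      ext x
      rw [mem_NI, mem_filter, hmemNZ]
      constructor
      · intro h3
        exact ⟨⟨z, hz, h3⟩, h3.1⟩
      · rintro ⟨⟨z', hz', h3⟩, h4⟩
        exact ⟨h4, h3.2⟩
    rw [sum_congr rfl e1, sum_comm]
    refine sum_congr rfl fun x _ => ?_
    rw [← card_filter]
  have hlow : Z.card + (Z ∩ FF G T c).card ≤ ∑ z ∈ Z, (NI G T c z).card := by
    have e1 : ∀ z ∈ Z, (1 + if z ∈ FF G T c then 1 else 0) ≤ (NI G T c z).card := by
      intro z hz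
      by_cases hzF : z ∈ FF G T c
      · rw [if_pos hzF]
        exact (mem_FF.1 hzF).2.2
      · rw [if_neg hzF]
        exact (hZ1 z hz).2.2
    have e2 := sum_le_sum e1
    rw [sum_add_distrib, sum_const, smul_eq_mul, mul_one, ← card_filter, filter_mem_eq_inter] at e2
    exact e2
  have hup : ∑ x ∈ NZ, (Z.filter fun z => G.Adj z x).card ≤ NZ.card + (NS G T c Z).card := by
    have e1 : ∀ x ∈ NZ, (Z.filter fun z => G.Adj z x).card ≤
        1 + if x ∈ NS G T c Z then 1 else 0 := by
      intro x hx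
      obtain ⟨z0, hz0, -, hxT⟩ := (hmemNZ x).1 hx
      by_cases hxS : x ∈ NS G T c Z
      · rw [if_pos hxS]
        by_contra h3
        push Not at h3
        obtain ⟨y1, y2, y3, hy1, hy2, hy3, h12, h13, h23⟩ := two_lt_card_iff.1 (by omega :
          2 < (Z.filter fun z => G.Adj z x).card)
        rw [mem_filter] at hy1 hy2 hy3
        rcases pair h hd hxT hy1.2.symm hy2.2.symm hy2.2.symm hy3.2.symm h12
          ((hZ1 _ hy1.1).1.trans (hZ1 _ hy2.1).1.symm) h23
          ((hZ1 _ hy2.1).1.trans (hZ1 _ hy3.1).1.symm) with h4 | h4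
        · exact h12 h4
        · exact h13 h4
      · rw [if_neg hxS]
        by_contra h3
        push Not at h3
        obtain ⟨y1, hy1, y2, hy2, h12⟩ := one_lt_card.1 (by omega :
          1 < (Z.filter fun z => G.Adj z x).card)
        rw [mem_filter] at hy1 hy2
        apply hxS
        rw [mem_NS]
        exact ⟨hxT, y1, hy1.1, rg_of_two h hd hxT hy1.2.symm hy2.2.symm h12
          ((hZ1 _ hy2.1).1.trans (hZ1 _ hy1.1).1.symm) (hZ1 _ hy1.1).2.1 (hZ1 _ hy2.1).2.1⟩
    have e2 := sum_le_sum e1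
    rw [sum_add_distrib, sum_const, smul_eq_mul, mul_one, ← card_filter, filter_mem_eq_inter] at e2
    have e3 := card_le_card (inter_subset_right : NZ ∩ NS G T c Z ⊆ NS G T c Z)
    omega
  omega

end Pool.Agent.U369.HY
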